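import Mathlib

/-!
# Project CW: strongly c-Wilf equivalent patterns (frozen statement S06917, problem MP_02ccfc_co)

Statements of the pieces. `p : Perm (Fin (m+1))` is the pattern, `al = p 0`, `de = p last - p 0 - 1`,
`ga = m - p last`; so `al + de + ga = m - 1`.
-/

set_option autoImplicit false

namespace Pool.Agent.W2helper59.CW

open MeasureTheory Set

/-- `p` occurs (consecutively) at position `i` of the word `u`. -/
def Occ {m n : ℕ} {β : Type} [LT β] (p : Equiv.Perm (Fin (m + 1))) (u : Fin n → β) (i : ℕ) : Prop :=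
  i + (m + 1) ≤ n ∧ ∀ a b : Fin (m + 1), ∀ (ha : i + (a : ℕ) < n) (hb : i + (b : ℕ) < n),
    (u ⟨i + (a : ℕ), ha⟩ < u ⟨i + (b : ℕ), hb⟩ ↔ p a < p b)

/-- `n` independent uniform variables in `[0,1]` -/
noncomputable def mu (n : ℕ) : Measure (Fin n → ℝ) :=
  Measure.pi (fun _ => (volume : Measure ℝ).restrict (Icc (0 : ℝ) 1))

/-- the probability that `p` occurs at all positions in `S` -/
noncomputable def V {m : ℕ} (p : Equiv.Perm (Fin (m + 1))) (n : ℕ) (S : Finset ℕ) : ℝ :=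
  (mu n).real {u | ∀ i ∈ S, Occ p u i}

open Classical in
/-- the number of permutations with an occurrence at all positions in `S` -/
noncomputable def cnt {m : ℕ} (p : Equiv.Perm (Fin (m + 1))) (n : ℕ) (S : Finset ℕ) : ℕ :=
  (Finset.univ.filter (fun σ : Equiv.Perm (Fin n) => ∀ i ∈ S, Occ p (σ : Fin n → Fin n) i)).card

/-- all sets of `k` positions -/
noncomputable def W {m : ℕ} (p : Equiv.Perm (Fin (m + 1))) (n k : ℕ) : ℝ :=
  ∑ S ∈ (Finset.range n).powersetCard k, V p n S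

open Classical in
/-- sets of `k` positions without a cut `1 ≤ c < n` -/
noncomputable def D {m : ℕ} (p : Equiv.Perm (Fin (m + 1))) (n k : ℕ) : ℝ :=
  ∑ S ∈ ((Finset.range n).powersetCard k).filter
    (fun S => ∀ c, 1 ≤ c → c < n → ∃ i ∈ S, i < c ∧ c ≤ i + m), V p n S

/-- the positions `0, m, 2m, ..., (k-1)m` -/
def Sk (m k : ℕ) : Finset ℕ := (Finset.range k).image (fun i => m * i)

/-! ## Part 1: combinatorics -/

/-- PIECE SYM. Proof: for `σ : Perm (Fin n)` let `C σ = {u | ∀ i j, u i < u j ↔ σ i < σ j}`. The sets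
`C σ` are disjoint, their union is the set of the injective `u` (co-null for `mu n`: the sets
`u i = u j` are null, `mu n` has no atoms in each coordinate; e.g. via absolute continuity with respect to
`volume`, or Fubini). Each `C σ` is the image of `C 1` under a permutation of the coordinates, which
preserves `mu n` (`measurePreserving_piCongrLeft`), so `mu n (C σ) = 1/n!` (`mu n` is a probability
measure). Up to a null set `{u | ∀ i ∈ S, Occ p u i}` is the union of the `C σ` with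
`∀ i ∈ S, Occ p σ i` (`Occ` only depends on the comparisons `u i < u j`). -/
def P_SYM : Prop :=
  ∀ (m : ℕ) (p : Equiv.Perm (Fin (m + 1))) (n : ℕ) (S : Finset ℕ),
    (cnt p n S : ℝ) = n.factorial * V p n S

/-- PIECE PROD. Proof: the event is `{u | (u restricted to the first c coordinates) ∈ E₁ and (u
restricted to the last n coordinates) ∈ E₂}`; `mu (c+n)` is the product of `mu c` and `mu n` under
`Fin (c+n) ≃ Fin c ⊕ Fin n` (`measurePreserving_sumPiEquivProdPi`, `measurePreserving_piCongrLeft`,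
`finSumFinEquiv`; or independence of disjoint families of coordinates, `iIndepFun.indepFun_finset`). -/
def P_PROD : Prop :=
  ∀ (m : ℕ) (p : Equiv.Perm (Fin (m + 1))) (c n : ℕ) (S T : Finset ℕ), (∀ i ∈ S, i + (m + 1) ≤ c) →
    V p (c + n) (S ∪ T.image (fun i => c + i)) = V p c S * V p n T

/-- PIECE MOM. The hypothesis is that of the frozen statement. Proof: with `em σ` the number of
`i ∈ range n` with `Occ p σ i`, `∑_S cnt p n S = ∑_σ #{S ⊆ {i | Occ p σ i}, |S| = k} =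
∑_σ (em σ).choose k = ∑_j j.choose k * #{σ | em σ = j}`. -/
def P_MOM : Prop :=
  ∀ (m : ℕ) (π τ : Equiv.Perm (Fin (m + 1))),
      (∀ n k : ℕ,
        (Finset.univ.filter (fun σ : Equiv.Perm (Fin n) =>
          ((Finset.range n).filter (fun i : ℕ => i + (m + 1) ≤ n ∧
            ∀ a b : Fin (m + 1), ∀ (ha : i + (a : ℕ) < n) (hb : i + (b : ℕ) < n),
              (σ ⟨i + (a : ℕ), ha⟩ < σ ⟨i + (b : ℕ), hb⟩ ↔ π a < π b))).card = k)).card
        =
        (Finset.univ.filter (fun σ : Equiv.Perm (Fin n) =>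
          ((Finset.range n).filter (fun i : ℕ => i + (m + 1) ≤ n ∧
            ∀ a b : Fin (m + 1), ∀ (ha : i + (a : ℕ) < n) (hb : i + (b : ℕ) < n),
              (σ ⟨i + (a : ℕ), ha⟩ < σ ⟨i + (b : ℕ), hb⟩ ↔ τ a < τ b))).card = k)).card) →
      ∀ n k : ℕ, ∑ S ∈ (Finset.range n).powersetCard k, cnt π n S =
        ∑ S ∈ (Finset.range n).powersetCard k, cnt τ n S

/-- PIECE CUT. Call `1 ≤ c ≤ n` a cut of `S` if no `i ∈ S` has `i < c ≤ i + m`. If `V p n S ≠ 0` then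
`i + (m+1) ≤ n` for all `i ∈ S`, so `n` is a cut. Let `c` be the first cut, `S₁ = {i ∈ S | i + m < c}`,
`S₂ = {i - c | i ∈ S, c ≤ i}`; then `S = S₁ ∪ (c + S₂)`, `S₁ ⊆ range c` has no cut in `[1,c)` and
`∀ i ∈ S₁, i + (m+1) ≤ c`, and `V p n S = V p c S₁ * V p (n-c) S₂` by `P_PROD`. Conversely every
`(c, S₁, S₂)` with `V p c S₁ * V p (n-c) S₂ ≠ 0` arises once. -/
def P_CUT : Prop :=
  P_PROD → ∀ (m : ℕ) (p : Equiv.Perm (Fin (m + 1))) (n k : ℕ), 1 ≤ n →
    W p n k = ∑ c ∈ Finset.Icc 1 n, ∑ j ∈ Finset.range (k + 1), D p c j * W p (n - c) (k - j)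

/-- PIECE DET. Strong induction on `n`: in the recursion for `n` the term `c = n` is
`∑_j D n j * W 0 (k-j) = D n k`, all the others involve `D c j` with `c < n`. -/
def P_DET : Prop :=
  ∀ (W₁ D₁ D₂ : ℕ → ℕ → ℝ), W₁ 0 0 = 1 → (∀ k, W₁ 0 (k + 1) = 0) →
    (∀ n k, 1 ≤ n → W₁ n k =
      ∑ c ∈ Finset.Icc 1 n, ∑ j ∈ Finset.range (k + 1), D₁ c j * W₁ (n - c) (k - j)) →
    (∀ n k, 1 ≤ n → W₁ n k =
      ∑ c ∈ Finset.Icc 1 n, ∑ j ∈ Finset.range (k + 1), D₂ c j * W₁ (n - c) (k - j)) →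
    ∀ n k, 1 ≤ n → D₁ n k = D₂ n k

/-- PIECE TILE. Proof: if `V p (m*k+1) S ≠ 0` then all `i ∈ S` have `i + m + 1 ≤ m*k+1`; the intervals
`[i+1, i+m]`, `i ∈ S`, are `k` intervals of length `m` which cover `[1, m*k]`, so they tile it and
`S = {0, m, ..., (k-1)m}` (by induction on `j` the element covering `m*j+1` is `m*j`, because the
elements `0, m, ..., (j-1)m` cover exactly `[1, m*j]` and the other `k-j` elements must cover
`[m*j+1, m*k]`). -/
def P_TILE : Prop :=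
  ∀ (m : ℕ) (p : Equiv.Perm (Fin (m + 1))) (k : ℕ), 1 ≤ m →
    D p (m * k + 1) k = V p (m * k + 1) (Sk m k)

/-! ## Part 2: the chain integral -/

/-- PIECE KAP. The word `(x, v, y)` with `x, y ∈ [0,1]` fixed and `v` uniform in the cube `[0,1]^l`.
Proof for `x < y`: colour an inner position `j : Fin l` (letter `j+1` of the pattern) by `0, 1, 2`
according to `p (j+1) < p 0`, between, `> p last`; there are `al, de, ga` positions of the three
colours. The event `B` that the coordinates of colour 0, 1, 2 lie in `[0,x), (x,y), (y,1]` has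
probability `x^al (y-x)^de (1-y)^ga` (`Measure.pi_pi`), and up to a null set it is the disjoint union
over the colour preserving permutations `e` of `Fin l` of the images of our event under the
permutation of coordinates `v ↦ v ∘ e`; these have the same measure, and there are `al! de! ga!` of
them (`DomMulAct.stabilizer_card`). For `x ≥ y` the event is empty. -/
def P_KAP : Prop :=
  ∀ (l : ℕ) (p : Equiv.Perm (Fin (l + 2))), p 0 < p (Fin.last (l + 1)) →
    ∀ x ∈ Icc (0 : ℝ) 1, ∀ y ∈ Icc (0 : ℝ) 1,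
      mu l {v : Fin l → ℝ | ∀ a b : Fin (l + 2),
        ((Fin.cons x (Fin.snoc v y : Fin (l + 1) → ℝ) : Fin (l + 2) → ℝ) a <
          (Fin.cons x (Fin.snoc v y : Fin (l + 1) → ℝ) : Fin (l + 2) → ℝ) b ↔ p a < p b)} =
      ENNReal.ofReal (if x < y then x ^ (p 0 : ℕ) *
        (y - x) ^ ((p (Fin.last (l + 1)) : ℕ) - (p 0 : ℕ) - 1) *
        (1 - y) ^ (l + 1 - (p (Fin.last (l + 1)) : ℕ)) /
        ((p 0 : ℕ).factorial * ((p (Fin.last (l + 1)) : ℕ) - (p 0 : ℕ) - 1).factorial *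
          (l + 1 - (p (Fin.last (l + 1)) : ℕ)).factorial) else 0)

/-- the kernel integral (forward) -/
noncomputable def Kl {l : ℕ} (p : Equiv.Perm (Fin (l + 2))) (h : ℝ → ENNReal) (x : ℝ) : ENNReal :=
  ∫⁻ y in Icc (0 : ℝ) 1, mu l {v : Fin l → ℝ | ∀ a b : Fin (l + 2),
        ((Fin.cons x (Fin.snoc v y : Fin (l + 1) → ℝ) : Fin (l + 2) → ℝ) a <
          (Fin.cons x (Fin.snoc v y : Fin (l + 1) → ℝ) : Fin (l + 2) → ℝ) b ↔ p a < p b)} * h y

/-- PIECE STEP. The last `m = l+1` coordinates are split off from the first `m*k+1` ones (product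
measure, as in PROD), and among them the last one, `y`, from the `l` inner ones (Fubini). An
occurrence at `m*i` with `i < k` only concerns the first `m*k+1` coordinates, the one at `m*k`
concerns `x = u (m*k)`, the inner coordinates and `y`. -/
def P_STEP : Prop :=
  ∀ (l : ℕ) (p : Equiv.Perm (Fin (l + 2))) (k : ℕ) (h : ℝ → ENNReal), Measurable h →
    ∫⁻ u in {u : Fin ((l + 1) * (k + 1) + 1) → ℝ | ∀ i ∈ Sk (l + 1) (k + 1), Occ p u i},
        h (u (Fin.last _)) ∂(mu ((l + 1) * (k + 1) + 1)) =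
      ∫⁻ u in {u : Fin ((l + 1) * k + 1) → ℝ | ∀ i ∈ Sk (l + 1) k, Occ p u i},
        Kl p h (u (Fin.last _)) ∂(mu ((l + 1) * k + 1))

/-- the real kernel -/
noncomputable def Kr (al de ga : ℕ) (h : ℝ → ℝ) (x : ℝ) : ℝ :=
  ∫ y in x..1, x ^ al * (y - x) ^ de * (1 - y) ^ ga * h y

/-- iterates of the constant function 1 -/
noncomputable def G (al de ga k : ℕ) : ℝ → ℝ := (Kr al de ga)^[k] (fun _ => 1)

/-- the chain integral -/
noncomputable def J (al de ga k : ℕ) : ℝ := ∫ x in (0 : ℝ)..1, G al de ga k x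

/-- PIECE CONT. Induction on `k` (`G (k+1) = Kr (G k)`), parametric interval integrals. -/
def P_CONT : Prop :=
  ∀ al de ga k : ℕ, Continuous (G al de ga k) ∧ ∀ x ∈ Icc (0 : ℝ) 1, 0 ≤ G al de ga k x

/-- PIECE CHN. Proof: by `P_STEP` and induction the left side is `∫⁻ x in [0,1], (Kl p)^[k] 1 x` (for
`k = 0`: `mu 1`), and for `x ∈ [0,1]`, `(Kl p)^[k] 1 x = ofReal (G al de ga k x / (al! de! ga!)^k)` by
`P_KAP` and `P_CONT`. Here `al = p 0` etc. -/
def P_CHN : Prop :=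
  P_KAP → P_STEP → P_CONT → ∀ (l : ℕ) (p : Equiv.Perm (Fin (l + 2))), p 0 < p (Fin.last (l + 1)) →
    ∀ al de ga : ℕ, al = (p 0 : ℕ) → de = (p (Fin.last (l + 1)) : ℕ) - (p 0 : ℕ) - 1 →
      ga = l + 1 - (p (Fin.last (l + 1)) : ℕ) → ∀ k : ℕ,
      V p ((l + 1) * k + 1) (Sk (l + 1) k) =
        J al de ga k / ((al.factorial : ℝ) * de.factorial * ga.factorial) ^ k

/-! ## Part 3: the exponential rate of the chain integral. Notation `d = de + 1`. -/

/-- the density `f (t) = t^(al/d) (1-t)^(ga/d)` -/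
noncomputable def fd (al de ga : ℕ) (t : ℝ) : ℝ :=
  t ^ ((al : ℝ) / (de + 1)) * (1 - t) ^ ((ga : ℝ) / (de + 1))

/-- its integral -/
noncomputable def Bt (al de ga : ℕ) : ℝ := ∫ t in (0 : ℝ)..1, fd al de ga t

/-- PIECE UP. Proof: let `F x = ∫ t in x..1, f`. For `0 ≤ x ≤ y ≤ 1`,
`F x - F y = ∫_x^y f ≥ (y-x) x^(al/d) (1-y)^(ga/d)`, so
`x^al (y-x)^de (1-y)^ga ≤ (F x - F y)^de * x^(al/d) (1-y)^(ga/d) ≤ (F x - F y)^de * f x`. By induction
(substitution `v = F y`, and `∫_0^z (z-v)^de v^a = de! a! / (a+de+1)! z^(a+de+1)`)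
`G k x ≤ de!^k F(x)^(d k - 1) f(x) / (d k - 1)!` for `k ≥ 1`, `x ∈ [0,1]`
(first step: `G 1 x ≤ ∫_x^1 (F x - F y)^de f x dy ≤ F(x)^de f(x)`; better: bound the last
factor `(1-y)^(ga/d)` by `f`-substitution only from the second step on), and integrate over `[0,1]`. -/
def P_UP : Prop :=
  ∀ al de ga k : ℕ, J al de ga k ≤
    (de.factorial : ℝ) ^ k * Bt al de ga ^ ((de + 1) * k) / (((de + 1) * k).factorial : ℝ)

/-- PIECE KER. Proof: `∫_x^y f ≤ (y-x) y^(al/d) (1-x)^(ga/d)`, hence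
`(∫_x^y f)^de f y ≤ (y-x)^de y^al (1-x)^(ga de/d) (1-y)^(ga/d)` and the quotient of the right side of
the claim by this is `(x/y)^al ((1-y)/(1-x))^(ga de/d) ≥ (x/y)^al ((1-y)/(1-x))^ga
≥ (1 - (y-x)/eta)^(al+ga)`; finally `∫_x^y f ≥ (y-x) min_[eta,1-eta] f`, so `y - x` is small if
`∫_x^y f ≤ theta` is small. -/
def P_KER : Prop :=
  ∀ (al de ga : ℕ) (eta rho : ℝ), 0 < eta → eta < 1 / 2 → 0 < rho → rho < 1 →
    ∃ theta : ℝ, 0 < theta ∧ ∀ x y : ℝ, eta ≤ x → x ≤ y → y ≤ 1 - eta →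
      (∫ t in x..y, fd al de ga t) ≤ theta →
      rho * (∫ t in x..y, fd al de ga t) ^ de * fd al de ga y ≤ x ^ al * (y - x) ^ de * (1 - y) ^ ga

/-- PIECE BET. Proof: substitute `v = y t`; `∫_0^1 t^de (1-t)^a = de! a!/(a+de+1)!`, and the part
`t ≥ theta/Bm` is at most `(1-theta/Bm)^a`, which is `≤ (1-rho) de! a!/(a+de+1)!` for large `a`
(exponential against the polynomial `(a+de+1)^(de+1)`). If `y ≤ theta` nothing is cut off. -/
def P_BET : Prop :=
  ∀ (de : ℕ) (theta Bm rho : ℝ), 0 < theta → 0 < Bm → 0 < rho → rho < 1 →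
    ∃ a₀ : ℕ, ∀ a : ℕ, a₀ ≤ a → ∀ y : ℝ, 0 ≤ y → y ≤ Bm →
      rho * ((de.factorial : ℝ) * a.factorial / (a + de + 1).factorial) * y ^ (a + de + 1) ≤
        ∫ v in (0 : ℝ)..(min theta y), v ^ de * (y - v) ^ a

/-- PIECE LOW (KEY). Proof: fix `eta` small and `F x = ∫ t in x..(1-eta), f` on `[eta, 1-eta]`, theta
from `P_KER`, `a₀` from `P_BET` (with `Bm = F eta`). For a `k₀` with `d k₀ ≥ a₀`, `G k₀` is continuous
and positive on `[eta,1-eta]`, so `G k₀ x ≥ c F(x)^(d k₀)` there. Induction: if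
`G k x ≥ c_k F(x)^(d k)` on `[eta,1-eta]` then
`G (k+1) x ≥ ∫_{y ∈ [x,1-eta], ∫_x^y f ≤ theta} rho (∫_x^y f)^de f(y) c_k F(y)^(d k) dy
= rho c_k ∫_0^(min theta (F x)) v^de (F x - v)^(d k) dv ≥ rho^2 c_k de! (d k)!/(d k + d)! F(x)^(d k+d)`
(substitution `v = ∫_x^y f`). So `G k x ≥ c (rho^2 de!)^k F(x)^(d k)/(d k)!` for `k ≥ k₀`, and
`J k ≥ ∫_eta^(eta+tau) G k ≥ c tau (rho^2 de!)^k (rho F(eta))^(d k)/(d k)!`; `F(eta)` is at least
`rho Bt` for small `eta`. For the finitely many `k < k₀` use `J k > 0` and decrease `c`. (Use `rho'`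
with `rho'^(2 d + 2) ≥ rho`.) -/
def P_LOW : Prop :=
  P_CONT → P_KER → P_BET → ∀ (al de ga : ℕ) (rho : ℝ), 0 < rho → rho < 1 →
    ∃ c : ℝ, 0 < c ∧ ∀ k : ℕ,
      c * (rho * de.factorial * Bt al de ga ^ (de + 1)) ^ k / (((de + 1) * k).factorial : ℝ)
        ≤ J al de ga k

/-- PIECE BINT. The Beta integral (Mathlib: `Complex.betaIntegral`,
`Complex.Gamma_mul_Gamma_eq_betaIntegral`, or a real version). -/
def P_BINT : Prop :=
  ∀ al de ga : ℕ, Bt al de ga = Real.Gamma (1 + (al : ℝ) / (de + 1)) *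
    Real.Gamma (1 + (ga : ℝ) / (de + 1)) / Real.Gamma (2 + ((al : ℝ) + ga) / (de + 1))

/-- PIECE RAT. `R (a) = (Gamma (1+(a+1)/d)/Gamma (1+a/d))^d / (a+1)` is strictly decreasing, `d ≥ 2`.
Proof of `R (a+1) < R a`, i.e. with `h = 1/d`, `t = a/d`:
`(Gamma(1+t+2h) Gamma(1+t) / Gamma(1+t+h)^2)^d < (a+2)/(a+1) = (t+2h)/(t+h)`. By the limit
`Real.GammaSeq` the left side is the limit of `∏_{j=1}^{n} ((X+h)^2/(X (X+2h)))^d`, `X = t+j`. The
function `X ↦ (X+h)^2/(X(X+2h))` is decreasing, so for each `X = t + j` (with `j ≥ 1`)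
`((X+h)^2/(X(X+2h)))^d ≤ ∏_{i=0}^{d-1} (X-ih+h)^2/((X-ih)(X-ih+2h))
= ((X-1+2h)/(X-1+h)) / ((X+2h)/(X+h))` (telescoping), strictly, and the product over `j` telescopes to
at most `(t+2h)/(t+h)`; the strictness of the factor `j = 1` is kept in the limit. -/
def P_RAT : Prop :=
  ∀ d a b : ℕ, 2 ≤ d → a < b →
    (Real.Gamma (1 + ((b : ℝ) + 1) / d) / Real.Gamma (1 + (b : ℝ) / d)) ^ d / ((b : ℝ) + 1) <
    (Real.Gamma (1 + ((a : ℝ) + 1) / d) / Real.Gamma (1 + (a : ℝ) / d)) ^ d / ((a : ℝ) + 1)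

/-- PIECE GMN. Direct from `P_BINT` and `P_RAT` with `a = al`, `b = ga - 1`, `d = de + 1`:
`(Bt (al+1) / Bt al)^d = (Gamma(1+(al+1)/d)/Gamma(1+al/d))^d (Gamma(1+(ga-1)/d)/Gamma(1+ga/d))^d >
(al+1)/ga`. -/
def P_GMN : Prop :=
  P_BINT → P_RAT → ∀ al de ga : ℕ, 1 ≤ de → al + 2 ≤ ga →
    Bt al de ga ^ (de + 1) / ((al.factorial : ℝ) * ga.factorial) <
      Bt (al + 1) de (ga - 1) ^ (de + 1) / (((al + 1).factorial : ℝ) * (ga - 1).factorial)

/-- PIECE ONE (the case `de = 0`). Proof: `G 1 x = x^al (1-x)^(ga+1)/(ga+1)`,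
`J al 0 ga 2 = ∫ x^al ∫_x^1 y^al (1-y)^(2 ga+1)/(ga+1) = ∫ y^(2 al+1)(1-y)^(2 ga+1)/((al+1)(ga+1))
= (2 al+1)! (2 ga+1)!/((al+1)(ga+1)(2 al+2 ga+3)!)`, so `J/(al! ga!)^2 =
C(2 al+1, al) C(2 ga+1, ga)/(2(al+ga)+3)!`, and `C(2a+3,a+1)/C(2a+1,a) = 2(2a+3)/(a+2)` is strictly
increasing in `a`, so for fixed `al + ga` the product is strictly decreasing in `al ≤ ga`. -/
def P_ONE : Prop :=
  ∀ al ga al' ga' : ℕ, al + ga = al' + ga' → al ≤ ga → al' ≤ ga' →
    J al 0 ga 2 / ((al.factorial : ℝ) * ga.factorial) ^ 2 =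
      J al' 0 ga' 2 / ((al'.factorial : ℝ) * ga'.factorial) ^ 2 → al = al'

/-- the conclusion of `P_GMN` -/
def P_GAM : Prop :=
  ∀ al de ga : ℕ, 1 ≤ de → al + 2 ≤ ga →
    Bt al de ga ^ (de + 1) / ((al.factorial : ℝ) * ga.factorial) <
      Bt (al + 1) de (ga - 1) ^ (de + 1) / (((al + 1).factorial : ℝ) * (ga - 1).factorial)

/-- the conclusion of `P_LOW` -/
def P_LOWC : Prop :=
  ∀ (al de ga : ℕ) (rho : ℝ), 0 < rho → rho < 1 →
    ∃ c : ℝ, 0 < c ∧ ∀ k : ℕ,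
      c * (rho * de.factorial * Bt al de ga ^ (de + 1)) ^ k / (((de + 1) * k).factorial : ℝ)
        ≤ J al de ga k

/-- PIECE FIN. Proof: if `de < de'` then by `P_LOWC` and `P_UP` `c r^k/((de+1) k)! ≤ R^k/((de'+1) k)!`
for all `k` with fixed `c, r, R > 0`, impossible since `((de'+1)k)!/((de+1)k)! ≥ k!`. So `de = de'`. If
`de = 0` use `P_ONE` with `k = 2`. If `de ≥ 1` and `al < al'` (then `al' ≤ ga' < ga`), by `P_GAM`
applied `al' - al` times `Φ := Bt al de ga^d/(al! ga!) < Φ' := Bt al' de ga'^d/(al'! ga'!)`; choose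
`rho < 1` with `rho Φ' > Φ`; then `c (rho Φ')^k ≤ Φ^k` for all `k` by `P_LOWC`, `P_UP`, impossible. -/
def P_FIN : Prop :=
  P_UP → P_LOWC → P_GAM → P_ONE → ∀ al de ga al' de' ga' : ℕ,
    al + de + ga = al' + de' + ga' → al ≤ ga → al' ≤ ga' →
    (∀ k : ℕ, J al de ga k / ((al.factorial : ℝ) * de.factorial * ga.factorial) ^ k =
      J al' de' ga' k / ((al'.factorial : ℝ) * de'.factorial * ga'.factorial) ^ k) →
    al = al' ∧ de = de' ∧ ga = ga'

end Pool.Agent.W2helper59.CW
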